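import Pool.Agent.Helper33.KV.GoalsF3
import Pool.Agent.Helper98.KV.FB

/-!
# Project KV (`MP_66be51_an`), packet KV-F3-DVB (helper33): `DVf = O(ρ)`
-/

set_option autoImplicit false
set_option linter.unusedVariables false

namespace Pool.Agent.Helper56.KV

open Real MeasureTheory Pool.Agent.Helper41.KV Pool.Agent.Helper33.KV

/-- Elementary combination of the bounds of the pieces. -/
lemma dvb_comb {ρ α κ c M C0 C1 m1 m2 m3 T1 a b LA LB tA tB v vy z zy Z1 Z2 Z3 : ℝ}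
    (hρ : 0 < ρ) (hρ1 : ρ ≤ 1) (hα : 0 < α) (hα1 : α < 1) (hC1 : 0 ≤ C1)
    (hm1 : 0 ≤ m1) (hm2 : 0 ≤ m2) (hm3 : 0 ≤ m3)
    (hT : |T1| ≤ C0 * ρ) (ha : |a| ≤ ρ) (hb : |b| ≤ ρ)
    (hLA : |LA + (5 / 2) * (2 * α + 1) * ρ * a - c * ρ ^ 2 * b| ≤ ρ)
    (hLB : |LB + 2 * a + (2 * α + 1) * ρ * b| ≤ ρ)
    (htA : |tA| ≤ C1) (htB : |tB| ≤ C1) (hv : |v| ≤ M) (hvy : |vy| ≤ M)
    (hz : |z| ≤ 2 * C1) (hzy : |zy| ≤ 4 * C1)
    (h1 : |Z1| ≤ m1) (h2 : |Z2| ≤ m2) (h3 : |Z3| ≤ m3) :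
    |T1 + (LA * tA + LB * tB) + a * (2 * α * ρ ^ 2 * κ * Z1)
      + b * (2 * α * ρ ^ 2 * κ * Z2 + 4 * α * ρ ^ 3 * Z3)
      - (2 * α + 1) * ρ * ((v + z) / 2 + (vy + zy))| ≤
    (C0 + (17 / 2 + |c|) * C1 + 6 * C1 + 2 * |κ| * m1 + 2 * |κ| * m2 + 4 * m3
      + 3 * (2 * M + 5 * C1)) * ρ := by
  have hρ2 : ρ ^ 2 ≤ 1 := pow_le_one₀ hρ.le hρ1
  have hρ3 : ρ ^ 3 ≤ 1 := pow_le_one₀ hρ.le hρ1
  have hLA' : |LA| ≤ (17 / 2 + |c|) * ρ := by
    have e : LA = (LA + (5 / 2) * (2 * α + 1) * ρ * a - c * ρ ^ 2 * b)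
      - (5 / 2) * (2 * α + 1) * ρ * a + c * ρ ^ 2 * b := by ring
    have e1 : |(5 / 2) * (2 * α + 1) * ρ * a| ≤ 15 / 2 * ρ := by
      rw [abs_mul, abs_of_nonneg (by positivity : 0 ≤ (5 / 2) * (2 * α + 1) * ρ)]
      have : (5 / 2) * (2 * α + 1) * ρ ≤ 15 / 2 := by nlinarith
      calc (5 / 2) * (2 * α + 1) * ρ * |a| ≤ 15 / 2 * |a| :=
            mul_le_mul_of_nonneg_right this (abs_nonneg a)
        _ ≤ 15 / 2 * ρ := by linarith
    have e2 : |c * ρ ^ 2 * b| ≤ |c| * ρ := by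
      rw [abs_mul, abs_mul, abs_of_nonneg (by positivity : 0 ≤ ρ ^ 2)]
      have : |c| * ρ ^ 2 ≤ |c| := by nlinarith [abs_nonneg c]
      calc |c| * ρ ^ 2 * |b| ≤ |c| * |b| := mul_le_mul_of_nonneg_right this (abs_nonneg b)
        _ ≤ |c| * ρ := mul_le_mul_of_nonneg_left hb (abs_nonneg c)
    rw [e]
    calc |(LA + (5 / 2) * (2 * α + 1) * ρ * a - c * ρ ^ 2 * b)
        - (5 / 2) * (2 * α + 1) * ρ * a + c * ρ ^ 2 * b| ≤
        |LA + (5 / 2) * (2 * α + 1) * ρ * a - c * ρ ^ 2 * b|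
          + |(5 / 2) * (2 * α + 1) * ρ * a| + |c * ρ ^ 2 * b| := by
          refine (abs_add_le _ _).trans ?_
          have := abs_sub (LA + (5 / 2) * (2 * α + 1) * ρ * a - c * ρ ^ 2 * b)
            ((5 / 2) * (2 * α + 1) * ρ * a)
          linarith
      _ ≤ ρ + 15 / 2 * ρ + |c| * ρ := by linarith
      _ = (17 / 2 + |c|) * ρ := by ring
  have hLB' : |LB| ≤ 6 * ρ := by
    have e : LB = (LB + 2 * a + (2 * α + 1) * ρ * b) - 2 * a - (2 * α + 1) * ρ * b := by ring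
    have e1 : |(2 * α + 1) * ρ * b| ≤ 3 * ρ := by
      rw [abs_mul, abs_of_nonneg (by positivity : 0 ≤ (2 * α + 1) * ρ)]
      have : (2 * α + 1) * ρ ≤ 3 := by nlinarith
      calc (2 * α + 1) * ρ * |b| ≤ 3 * |b| := mul_le_mul_of_nonneg_right this (abs_nonneg b)
        _ ≤ 3 * ρ := by linarith
    have e2 : |2 * a| ≤ 2 * ρ := by
      rw [abs_mul, abs_two]; linarith
    rw [e]
    have s1 := abs_sub (LB + 2 * a + (2 * α + 1) * ρ * b - 2 * a) ((2 * α + 1) * ρ * b)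
    have s2 := abs_sub (LB + 2 * a + (2 * α + 1) * ρ * b) (2 * a)
    linarith
  have p1 : |LA * tA| ≤ (17 / 2 + |c|) * ρ * C1 := by
    rw [abs_mul]; exact mul_le_mul hLA' htA (abs_nonneg _) (by positivity)
  have p2 : |LB * tB| ≤ 6 * ρ * C1 := by
    rw [abs_mul]; exact mul_le_mul hLB' htB (abs_nonneg _) (by positivity)
  have k1 : |2 * α * ρ ^ 2 * κ| ≤ 2 * |κ| := by
    rw [abs_mul, abs_of_nonneg (by positivity : 0 ≤ 2 * α * ρ ^ 2)]
    have : 2 * α * ρ ^ 2 ≤ 2 := by nlinarith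
    exact mul_le_mul_of_nonneg_right this (abs_nonneg κ)
  have k2 : |4 * α * ρ ^ 3| ≤ 4 := by
    rw [abs_of_nonneg (by positivity : 0 ≤ 4 * α * ρ ^ 3)]
    have h0 : 0 ≤ ρ ^ 3 := by positivity
    nlinarith
  have p3 : |a * (2 * α * ρ ^ 2 * κ * Z1)| ≤ 2 * |κ| * m1 * ρ := by
    rw [abs_mul, abs_mul]
    have : |2 * α * ρ ^ 2 * κ| * |Z1| ≤ 2 * |κ| * m1 :=
      mul_le_mul k1 h1 (abs_nonneg _) (by positivity)
    calc |a| * (|2 * α * ρ ^ 2 * κ| * |Z1|) ≤ ρ * (2 * |κ| * m1) :=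
          mul_le_mul ha this (by positivity) hρ.le
      _ = 2 * |κ| * m1 * ρ := by ring
  have p4 : |b * (2 * α * ρ ^ 2 * κ * Z2 + 4 * α * ρ ^ 3 * Z3)| ≤
      (2 * |κ| * m2 + 4 * m3) * ρ := by
    rw [abs_mul]
    have q1 : |2 * α * ρ ^ 2 * κ * Z2| ≤ 2 * |κ| * m2 := by
      rw [abs_mul]; exact mul_le_mul k1 h2 (abs_nonneg _) (by positivity)
    have q2 : |4 * α * ρ ^ 3 * Z3| ≤ 4 * m3 := by
      rw [abs_mul]; exact mul_le_mul k2 h3 (abs_nonneg _) (by norm_num)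
    have q3 : |2 * α * ρ ^ 2 * κ * Z2 + 4 * α * ρ ^ 3 * Z3| ≤ 2 * |κ| * m2 + 4 * m3 :=
      (abs_add_le _ _).trans (add_le_add q1 q2)
    calc |b| * |2 * α * ρ ^ 2 * κ * Z2 + 4 * α * ρ ^ 3 * Z3| ≤ ρ * (2 * |κ| * m2 + 4 * m3) :=
          mul_le_mul hb q3 (abs_nonneg _) hρ.le
      _ = (2 * |κ| * m2 + 4 * m3) * ρ := by ring
  have p5 : |(2 * α + 1) * ρ * ((v + z) / 2 + (vy + zy))| ≤ 3 * (2 * M + 5 * C1) * ρ := by
    rw [abs_mul, abs_of_nonneg (by positivity : 0 ≤ (2 * α + 1) * ρ)]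
    have q1 : |(v + z) / 2 + (vy + zy)| ≤ 2 * M + 5 * C1 := by
      have i1 := abs_le.1 hv
      have i2 := abs_le.1 hvy
      have i3 := abs_le.1 hz
      have i4 := abs_le.1 hzy
      rw [abs_le]
      constructor <;> linarith
    have q2 : (2 * α + 1) * ρ ≤ 3 * ρ := by nlinarith
    have q3 : 0 ≤ 2 * M + 5 * C1 := (abs_nonneg _).trans q1
    calc (2 * α + 1) * ρ * |(v + z) / 2 + (vy + zy)| ≤ 3 * ρ * (2 * M + 5 * C1) :=
          mul_le_mul q2 q1 (abs_nonneg _) (by positivity)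
      _ = 3 * (2 * M + 5 * C1) * ρ := by ring
  have i1 := abs_le.1 hT
  have i2 := abs_le.1 p1
  have i3 := abs_le.1 p2
  have i4 := abs_le.1 p3
  have i5 := abs_le.1 p4
  have i6 := abs_le.1 p5
  rw [abs_le]
  constructor <;> nlinarith

/-- `|y| e^{-3|y|/4} ≤ 2`. -/
lemma y_exp_le (y : ℝ) : |y| * Real.exp (-(3 / 4) * |y|) ≤ 2 := by
  have h1 : (3 / 4) * |y| + 1 ≤ Real.exp ((3 / 4) * |y|) := Real.add_one_le_exp _
  have h2 : Real.exp (-(3 / 4) * |y|) * Real.exp ((3 / 4) * |y|) = 1 := by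
    rw [← Real.exp_add]; simp
  have h3 := Real.exp_pos (-(3 / 4) * |y|)
  nlinarith [abs_nonneg y]

theorem thm_DVB (hQ : S_QF) (hE : S_ECL1) (hC : S_CURVE) (hT : S_TAUB) : S_DVB := by
  intro α K C n Z Y V2 hα hα1 hZ hY hV
  obtain ⟨hTE, C1, ρ1, hρ1, hρ11, hTB⟩ := hT α Z Y V2 hZ hY hV
  have hZE := Pool.Agent.Helper98.KV.dZ_E hZ
  have hyZE : IsE (fun y => y * deriv Z y) := by
    have := Pool.Agent.Helper98.KV.idP
    exact Pool.Agent.Helper61.KV.mulPE this hZE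
  have hVE := Pool.Agent.Helper98.KV.dV2_E hZ hV
  obtain ⟨m1, hm1⟩ := hyZE.2 0 0 one_pos
  obtain ⟨m2, hm2⟩ := hZE.2 0 0 one_pos
  obtain ⟨m3, hm3⟩ := hVE.2 0 0 one_pos
  simp only [iteratedDeriv_zero, zero_mul, neg_zero, Real.exp_zero, mul_one] at hm1 hm2 hm3
  obtain ⟨hc1, hc2, -⟩ := hC α hα hα1
  refine ⟨ρ1, |C| + (17 / 2 + |(4 / IQ) * cc α|) * |C1| + 6 * |C1| + 2 * |kap α| * |m1|
    + 2 * |kap α| * |m2| + 4 * |m3| + 3 * (2 * (2 * |C|) + 5 * |C1|), hρ1, ?_⟩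
  intro N0 T W Wt r r' hT0 hrT hB t ht hρt a b a' b' ha hb hA hBB y
  obtain ⟨hsg, hlm, hρ, -⟩ := hc1 t ht.1
  have hρle : rho α t ≤ 1 := ((hc2 t T ht.1 ht.2).2.2).trans hrT
  set ρ := rho α t with hρdef
  -- smoothness of `inn W`
  have hWs : ContDiff ℝ (⊤ : ℕ∞) (W t) := (hB.hinf t t ht.1 le_rfl ht.2).1.smooth t ⟨le_rfl, le_rfl⟩
  have hvs : ContDiff ℝ (⊤ : ℕ∞) (inn α W t) := by
    have : inn α W t = fun y => Real.sqrt (lam α t) * W t (sig α t + lam α t * y) := by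
      funext y; rfl
    rw [this]
    exact contDiff_const.mul (hWs.comp (contDiff_const.add (contDiff_const.mul contDiff_id)))
  have hvd : DifferentiableAt ℝ (inn α W t) y := hvs.differentiable (by simp) y
  have htA := (hTE ρ).1
  have htB := (hTE ρ).2.1
  have hAd : DifferentiableAt ℝ (tauA α Z ρ) y := htA.1.differentiable (by simp) y
  have hBd : DifferentiableAt ℝ (tauB α Z V2 ρ) y := htB.1.differentiable (by simp) y
  have hder : deriv (fun y => inn α W t y + (a t * tauA α Z ρ y + b t * tauB α Z V2 ρ y)) y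
      = deriv (inn α W t) y + (a t * deriv (tauA α Z ρ) y + b t * deriv (tauB α Z V2 ρ) y) :=
    (hvd.hasDerivAt.add ((hAd.hasDerivAt.const_mul (a t)).add
      (hBd.hasDerivAt.const_mul (b t)))).deriv
  obtain ⟨hk, -⟩ := hTB ρ hρ.le hρt
  obtain ⟨hA0, hB0, -⟩ := hk 0 (by norm_num) y
  obtain ⟨hA1, hB1, -⟩ := hk 1 (by norm_num) y
  rw [iteratedDeriv_zero] at hA0 hB0
  rw [iteratedDeriv_one] at hA1 hB1
  have hex := Real.exp_pos (-(3 / 4) * |y|)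
  have hex1 : Real.exp (-(3 / 4) * |y|) ≤ 1 := by
    rw [Real.exp_le_one_iff]; nlinarith [abs_nonneg y]
  have hyex := y_exp_le y
  have hC1e : C1 * Real.exp (-(3 / 4) * |y|) ≤ |C1| := by
    calc C1 * Real.exp (-(3 / 4) * |y|) ≤ |C1| * Real.exp (-(3 / 4) * |y|) :=
          mul_le_mul_of_nonneg_right (le_abs_self _) hex.le
      _ ≤ |C1| * 1 := mul_le_mul_of_nonneg_left hex1 (abs_nonneg _)
      _ = |C1| := mul_one _
  have hA0' := hA0.trans hC1e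
  have hB0' := hB0.trans hC1e
  have hyd : ∀ x : ℝ, |x| ≤ C1 * Real.exp (-(3 / 4) * |y|) → |y * x| ≤ 2 * |C1| := by
    intro x hx
    rw [abs_mul]
    calc |y| * |x| ≤ |y| * (C1 * Real.exp (-(3 / 4) * |y|)) :=
          mul_le_mul_of_nonneg_left hx (abs_nonneg _)
      _ = C1 * (|y| * Real.exp (-(3 / 4) * |y|)) := by ring
      _ ≤ |C1| * (|y| * Real.exp (-(3 / 4) * |y|)) :=
          mul_le_mul_of_nonneg_right (le_abs_self _) (by positivity)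
      _ ≤ |C1| * 2 := mul_le_mul_of_nonneg_left hyex (abs_nonneg _)
      _ = 2 * |C1| := by ring
  have hyA := hyd _ hA1
  have hyB := hyd _ hB1
  have ha1 : |a t| ≤ 1 := ha.trans hρle
  have hb1 : |b t| ≤ 1 := hb.trans hρle
  have hz : |a t * tauA α Z ρ y + b t * tauB α Z V2 ρ y| ≤ 2 * |C1| := by
    refine (abs_add_le _ _).trans ?_
    rw [abs_mul, abs_mul]
    have := mul_le_mul ha1 hA0' (abs_nonneg _) zero_le_one
    have := mul_le_mul hb1 hB0' (abs_nonneg _) zero_le_one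
    linarith
  have hzy : |y * (a t * deriv (tauA α Z ρ) y + b t * deriv (tauB α Z V2 ρ) y)| ≤ 4 * |C1| := by
    have : y * (a t * deriv (tauA α Z ρ) y + b t * deriv (tauB α Z V2 ρ) y)
        = a t * (y * deriv (tauA α Z ρ) y) + b t * (y * deriv (tauB α Z V2 ρ) y) := by ring
    rw [this]
    refine (abs_add_le _ _).trans ?_
    rw [abs_mul (a t), abs_mul (b t)]
    have := mul_le_mul ha1 hyA (abs_nonneg _) zero_le_one
    have := mul_le_mul hb1 hyB (abs_nonneg _) zero_le_one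
    linarith
  -- bounds of `inn W`
  have hexh : Real.exp (-|y| / 2) ≤ 1 := by
    rw [Real.exp_le_one_iff]; linarith [abs_nonneg y]
  have hrh : ρ ^ ((1 : ℝ) / 2) ≤ 1 := Real.rpow_le_one hρ.le hρle (by norm_num)
  have hCC : C * (Real.exp (-|y| / 2) + ρ ^ ((1 : ℝ) / 2)) ≤ 2 * |C| := by
    have h0 : 0 ≤ Real.exp (-|y| / 2) + ρ ^ ((1 : ℝ) / 2) := by positivity
    calc C * (Real.exp (-|y| / 2) + ρ ^ ((1 : ℝ) / 2)) ≤
          |C| * (Real.exp (-|y| / 2) + ρ ^ ((1 : ℝ) / 2)) :=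
          mul_le_mul_of_nonneg_right (le_abs_self _) h0
      _ ≤ |C| * 2 := mul_le_mul_of_nonneg_left (by linarith) (abs_nonneg _)
      _ = 2 * |C| := by ring
  have hv : |inn α W t y| ≤ 2 * |C| := (hB.b0 t ht y).trans hCC
  have hvy : |y * deriv (inn α W t) y| ≤ 2 * |C| := by
    have h1 := (hB.b1 t ht y).trans hCC
    rw [abs_mul]
    nlinarith [abs_nonneg (deriv (inn α W t) y)]
  have hT1 : |lam α t ^ 3 * derivWithin (fun τ => inn α W τ y) (Set.Ioc 0 T) t| ≤ |C| * ρ := by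
    have h1 := hB.bt t ht y
    rw [abs_mul, abs_of_nonneg (by positivity : 0 ≤ lam α t ^ 3)]
    refine h1.trans ?_
    have h2 : ρ ^ ((5 : ℝ) / 4) ≤ ρ := by
      have := Real.rpow_le_rpow_of_exponent_ge hρ hρle (by norm_num : (1 : ℝ) ≤ 5 / 4)
      rwa [Real.rpow_one] at this
    have h3 : 0 ≤ ρ ^ ((5 : ℝ) / 4) := by positivity
    calc C * ρ ^ ((5 : ℝ) / 4) ≤ |C| * ρ ^ ((5 : ℝ) / 4) :=
          mul_le_mul_of_nonneg_right (le_abs_self _) h3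
      _ ≤ |C| * ρ := mul_le_mul_of_nonneg_left h2 (abs_nonneg _)
  have hA' : |lam α t ^ 3 * a' t + (5 / 2) * (2 * α + 1) * ρ * a t
      - (4 / IQ) * cc α * ρ ^ 2 * b t| ≤ ρ := hA
  have hB' : |lam α t ^ 3 * b' t + 2 * a t + (2 * α + 1) * ρ * b t| ≤ ρ := hBB
  have key := dvb_comb (κ := kap α) (Z1 := y * deriv Z y) (Z2 := deriv Z y)
    (Z3 := deriv V2 y - cc α * Z y) hρ hρle hα hα1 (abs_nonneg C1) (abs_nonneg m1)
    (abs_nonneg m2) (abs_nonneg m3) hT1 ha hb hA' hB' hA0' hB0' hv hvy hz hzy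
    ((hm1 y).trans (le_abs_self _)) ((hm2 y).trans (le_abs_self _))
    ((hm3 y).trans (le_abs_self _))
  refine le_trans (le_of_eq ?_) key
  congr 1
  unfold Lam
  rw [hder]
  ring

end Pool.Agent.Helper56.KV
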