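import Pool.Agent.Helper41.KV.GoalsE

/-!
# Project KV, packet SOLVEP: inversion with polynomial left tails
-/

namespace Pool.Agent.Helper56.KV

open Real MeasureTheory Pool.Agent.Helper41.KV

/-- A primitive of a polynomial. -/
lemma exists_prim (p : Polynomial ℝ) : ∃ P : Polynomial ℝ, P.derivative = p := by
  refine ⟨∑ i ∈ Finset.range (p.natDegree + 1),
    Polynomial.C (p.coeff i / (i + 1)) * Polynomial.X ^ (i + 1), ?_⟩
  rw [Polynomial.derivative_sum]
  conv_rhs => rw [p.as_sum_range_C_mul_X_pow]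
  refine Finset.sum_congr rfl fun i _ => ?_
  rw [Polynomial.derivative_C_mul_X_pow]
  congr 1
  congr 1
  have : (i : ℝ) + 1 ≠ 0 := by positivity
  push_cast
  field_simp

/-- Inversion of `1 - D²` on polynomials. -/
lemma exists_q (P : Polynomial ℝ) : ∃ q : Polynomial ℝ, q - q.derivative.derivative = P := by
  refine ⟨∑ i ∈ Finset.range (P.natDegree + 1), Polynomial.derivative^[2 * i] P, ?_⟩
  rw [Polynomial.derivative_sum, Polynomial.derivative_sum, ← Finset.sum_sub_distrib]
  have h : ∀ i ∈ Finset.range (P.natDegree + 1),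
      Polynomial.derivative^[2 * i] P -
        Polynomial.derivative (Polynomial.derivative (Polynomial.derivative^[2 * i] P)) =
      Polynomial.derivative^[2 * i] P - Polynomial.derivative^[2 * (i + 1)] P := by
    intro i _
    rw [show 2 * (i + 1) = 2 * i + 1 + 1 by ring, Function.iterate_succ_apply',
      Function.iterate_succ_apply']
  have h0 : Polynomial.derivative^[2 * (P.natDegree + 1)] P = 0 :=
    Polynomial.iterate_derivative_eq_zero (by omega)
  rw [Finset.sum_congr rfl h, Finset.sum_range_sub' (fun i => Polynomial.derivative^[2 * i] P),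
    h0, sub_zero]
  rfl

/-- `sech²`. -/
noncomputable def S (y : ℝ) : ℝ := 1 / (Real.cosh (2 * y)) ^ 2

lemma hasDerivAt_chiM (y : ℝ) : HasDerivAt chiM (-(S y)) y := by
  have hc : Real.cosh (2 * y) ≠ 0 := (Real.cosh_pos _).ne'
  have h2 : HasDerivAt (fun y : ℝ => 2 * y) 2 y := by
    simpa using (hasDerivAt_id y).const_mul (2 : ℝ)
  have hs : HasDerivAt (fun y : ℝ => Real.sinh (2 * y)) (Real.cosh (2 * y) * 2) y :=
    (Real.hasDerivAt_sinh (2 * y)).comp y h2
  have hco : HasDerivAt (fun y : ℝ => Real.cosh (2 * y)) (Real.sinh (2 * y) * 2) y :=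
    (Real.hasDerivAt_cosh (2 * y)).comp y h2
  have hq := hs.div hco hc
  have h3 : HasDerivAt (fun y : ℝ => (1 - Real.sinh (2 * y) / Real.cosh (2 * y)) / 2)
      (-(S y)) y := by
    refine ((hq.const_sub 1).div_const 2).congr_deriv ?_
    unfold S
    have := Real.cosh_sq (2 * y)
    field_simp
    rw [this]
    ring
  have h4 : chiM = fun y : ℝ => (1 - Real.sinh (2 * y) / Real.cosh (2 * y)) / 2 := by
    funext y
    unfold chiM
    rw [Real.tanh_eq_sinh_div_cosh]
  rw [h4]
  exact h3

lemma hd_of_smooth {f : ℝ → ℝ} (hf : ContDiff ℝ (⊤ : ℕ∞) f) (y : ℝ) :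
    HasDerivAt f (deriv f y) y :=
  ((hf.differentiable (by simp)) y).hasDerivAt

theorem thm_SOLVEP (hQ : S_QF) (hE : S_ECL1) (hE2 : S_ECL2) (hG : S_GREEN) : S_SOLVEP := by
  obtain ⟨Qs, -, -, Q4, Q1, Q2, Qd, -⟩ := hQ
  obtain ⟨EW, WP, Ea, -, Pa, PE, -, PP, Ed, -, -, Ppol, Pth, Es, -, Int, EInt⟩ := hE
  have EP : ∀ f, IsE f → IsP f := fun f hf => WP f (EW f hf)
  have hQE : IsE Q := by
    refine ⟨Qs, fun k μ hμ => ?_⟩
    obtain ⟨C, hC⟩ := Qd k
    refine ⟨|C|, fun y => (hC y).trans ?_⟩
    calc C * Real.exp (-|y|) ≤ |C| * Real.exp (-|y|) :=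
          mul_le_mul_of_nonneg_right (le_abs_self C) (Real.exp_pos _).le
      _ ≤ |C| * Real.exp (-(μ * |y|)) := by
          refine mul_le_mul_of_nonneg_left (Real.exp_le_exp.2 ?_) (abs_nonneg C)
          nlinarith [abs_nonneg y]
  have hSE : IsE S := Es
  have hconst : ∀ a : ℝ, IsP (fun _ => a) := by
    intro a
    have := Ppol (Polynomial.C a)
    simpa using this
  have hneg : ∀ f, IsE f → IsE (fun y => -f y) := by
    intro f hf
    have := PE _ _ (hconst (-1)) hf
    simpa using this
  have hchiP : IsP chiM := by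
    have h1 := Pa _ _ (hconst (1 / 2)) (PP _ _ (hconst (-1 / 2)) Pth)
    have h2 : chiM = fun y => 1 / 2 + -1 / 2 * Real.tanh (2 * y) := by
      funext y
      unfold chiM
      ring
    rw [h2]
    exact h1
  intro p R hR hRQ
  unfold HasTail at hR
  set e0 : ℝ → ℝ := fun y => R y - p.eval y * chiM y with he0
  have hReq : R = fun y => e0 y + p.eval y * chiM y := by
    funext y
    rw [he0]
    ring
  have hRP : IsP R := by
    rw [hReq]
    exact Pa _ _ (EP _ hR) (PP _ _ (Ppol p) hchiP)
  obtain ⟨P0, hP0⟩ := exists_prim p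
  have hSpos : 0 < ∫ y, S y := by
    rw [integral_pos_iff_support_of_nonneg (fun y => by unfold S; positivity) (EInt _ hSE)]
    have : Function.support S = Set.univ := by
      ext y
      simp only [Function.mem_support, Set.mem_univ, iff_true]
      unfold S
      have := Real.cosh_pos (2 * y)
      positivity
    rw [this]
    simp
  have hf0 : IsE (fun y => e0 y + P0.eval y * S y) := Ea _ _ hR (PE _ _ (Ppol P0) hSE)
  set a : ℝ := -(∫ y, (e0 y + P0.eval y * S y)) / ∫ y, S y with ha
  set P1 : Polynomial ℝ := P0 + Polynomial.C a with hP1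
  have hP1d : P1.derivative = p := by
    rw [hP1, Polynomial.derivative_add, Polynomial.derivative_C, add_zero, hP0]
  set e1 : ℝ → ℝ := fun y => e0 y + P1.eval y * S y with he1
  have he1E : IsE e1 := Ea _ _ hR (PE _ _ (Ppol P1) hSE)
  have he1i : ∫ y, e1 y = 0 := by
    have h1 : ∀ y, e1 y = (e0 y + P0.eval y * S y) + a * S y := by
      intro y
      rw [he1, hP1]
      simp only [Polynomial.eval_add, Polynomial.eval_C]
      ring
    simp_rw [h1]
    rw [integral_add (EInt _ hf0) ((EInt _ hSE).const_mul a), integral_const_mul, ha,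
      div_mul_cancel₀ _ hSpos.ne']
    ring
  obtain ⟨E1, hE1, hE1d⟩ := hE2.1 e1 he1E he1i
  set G : ℝ → ℝ := fun y => P1.eval y * chiM y + E1 y with hGdef
  have hGd : ∀ y, HasDerivAt G (R y) y := by
    intro y
    refine ((P1.hasDerivAt y).mul (hasDerivAt_chiM y)).add (hE1d y) |>.congr_deriv ?_
    rw [hP1d, he1, he0]
    ring
  have hGP : IsP G := Pa _ _ (PP _ _ (Ppol P1) hchiP) (EP _ hE1)
  obtain ⟨q, hq⟩ := exists_q P1
  set u : ℝ → ℝ := fun y => q.eval y * chiM y with hu
  have huP : IsP u := PP _ _ (Ppol q) hchiP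
  have hSd : ∀ y, HasDerivAt S (deriv S y) y := hd_of_smooth hSE.1
  have hu1 : ∀ y, HasDerivAt u (q.derivative.eval y * chiM y - q.eval y * S y) y := by
    intro y
    refine ((q.hasDerivAt y).mul (hasDerivAt_chiM y)).congr_deriv ?_
    ring
  have hdu : deriv u = fun y => q.derivative.eval y * chiM y - q.eval y * S y :=
    funext fun y => (hu1 y).deriv
  have hu2 : ∀ y, HasDerivAt (deriv u) (q.derivative.derivative.eval y * chiM y -
      2 * (q.derivative.eval y * S y) - q.eval y * deriv S y) y := by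
    intro y
    rw [hdu]
    refine (((q.derivative.hasDerivAt y).mul (hasDerivAt_chiM y)).sub
      ((q.hasDerivAt y).mul (hSd y))).congr_deriv ?_
    ring
  have hduP : IsP (deriv u) := by
    have h1 := Pa _ _ (PP _ _ (Ppol q.derivative) hchiP)
      (EP _ (hneg _ (PE _ _ (Ppol q) hSE)))
    have h2 : deriv u = fun y => q.derivative.eval y * chiM y + -(q.eval y * S y) := by
      rw [hdu]
      funext y
      ring
    rw [h2]
    exact h1
  -- the remainder
  set g2 : ℝ → ℝ := fun y => G y - Lop u y with hg2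
  have hg2eq : g2 = fun y => (E1 y + -(2 * q.derivative.eval y * S y)) +
      (-(q.eval y * deriv S y) + (15 * u y) * S y) := by
    funext y
    have h1 : P1.eval y = q.eval y - q.derivative.derivative.eval y := by
      rw [← hq, Polynomial.eval_sub]
    have h2 : 5 * Q y ^ 4 = 15 * S y := by
      rw [Q4 y]
      unfold S
      ring
    rw [hg2, hGdef]
    simp only
    unfold Lop
    rw [(hu2 y).deriv, h2, h1, hu]
    ring
  have hg2E : IsE g2 := by
    rw [hg2eq]
    refine Ea _ _ (Ea _ _ hE1 (hneg _ ?_)) (Ea _ _ (hneg _ ?_) ?_)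
    · exact PE _ _ (PP _ _ (hconst 2) (Ppol q.derivative)) hSE
    · exact PE _ _ (Ppol q) (Ed _ hSE)
    · exact PE _ _ (PP _ _ (hconst 15) huP) hSE
  -- orthogonality
  have hQ'E : IsE (deriv Q) := Ed _ hQE
  have hQ''E : IsE (deriv (deriv Q)) := Ed _ hQ'E
  have hQd : ∀ y, HasDerivAt Q (deriv Q y) y := hd_of_smooth hQE.1
  have hQ'd : ∀ y, HasDerivAt (deriv Q) (deriv (deriv Q) y) y := hd_of_smooth hQ'E.1
  have hQ''d : ∀ y, HasDerivAt (deriv (deriv Q)) (deriv Q y - 5 * Q y ^ 4 * deriv Q y) y := by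
    intro y
    have h1 : deriv (deriv Q) = fun y => Q y - Q y ^ 5 := funext Q2
    rw [h1]
    refine ((hQd y).sub ((hQd y).pow 5)).congr_deriv ?_
    push_cast
    ring
  have hGQ' : ∫ y, G y * deriv Q y = 0 := by
    have h1 : ∫ y, (R y * Q y + G y * deriv Q y) = 0 :=
      integral_eq_zero_of_hasDerivAt_of_integrable
        (f := fun y => G y * Q y) (fun y => (hGd y).mul (hQd y))
        ((Int _ _ hRP hQE).add (Int _ _ hGP hQ'E)) (Int _ _ hGP hQE)
    rw [integral_add (Int _ _ hRP hQE) (Int _ _ hGP hQ'E), hRQ, zero_add] at h1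
    exact h1
  have hW : ∫ y, (deriv (deriv u) y * deriv Q y - u y * (deriv Q y - 5 * Q y ^ 4 * deriv Q y))
      = 0 := by
    have hi1 : Integrable (fun y => deriv u y * deriv Q y - u y * deriv (deriv Q) y) :=
      (Int _ _ hduP hQ'E).sub (Int _ _ huP hQ''E)
    have hd : ∀ y, HasDerivAt (fun y => deriv u y * deriv Q y - u y * deriv (deriv Q) y)
        (deriv (deriv u) y * deriv Q y - u y * (deriv Q y - 5 * Q y ^ 4 * deriv Q y)) y := by
      intro y
      have e1 : HasDerivAt (deriv u) (deriv (deriv u) y) y := by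
        rw [(hu2 y).deriv]; exact hu2 y
      have e2 : HasDerivAt u (deriv u y) y := by
        rw [(hu1 y).deriv]; exact hu1 y
      refine ((e1.mul (hQ'd y)).sub (e2.mul (hQ''d y))).congr_deriv ?_
      ring
    have hEr : IsE (fun y => deriv u y * deriv Q y + -(u y * deriv (deriv Q) y)) :=
      Ea _ _ (PE _ _ hduP hQ'E) (hneg _ (PE _ _ huP hQ''E))
    have hi2 : Integrable
        (fun y => deriv (deriv u) y * deriv Q y - u y * (deriv Q y - 5 * Q y ^ 4 * deriv Q y)) := by
      have h1 := EInt _ (Ed _ hEr)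
      have h2 : deriv (fun y => deriv u y * deriv Q y + -(u y * deriv (deriv Q) y)) =
          fun y => deriv (deriv u) y * deriv Q y -
            u y * (deriv Q y - 5 * Q y ^ 4 * deriv Q y) := by
        funext y
        rw [← (hd y).deriv]
        congr 1
      rw [h2] at h1
      exact h1
    exact integral_eq_zero_of_hasDerivAt_of_integrable hd hi2 hi1
  have hg2Q : ∫ y, g2 y * deriv Q y = 0 := by
    have h1 : ∀ y, g2 y * deriv Q y = G y * deriv Q y +
        (deriv (deriv u) y * deriv Q y - u y * (deriv Q y - 5 * Q y ^ 4 * deriv Q y)) := by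
      intro y
      rw [hg2]
      simp only
      unfold Lop
      ring
    have hi : Integrable (fun y => deriv (deriv u) y * deriv Q y -
        u y * (deriv Q y - 5 * Q y ^ 4 * deriv Q y)) := by
      have h2 : (fun y => deriv (deriv u) y * deriv Q y -
          u y * (deriv Q y - 5 * Q y ^ 4 * deriv Q y)) =
          fun y => g2 y * deriv Q y - G y * deriv Q y := by
        funext y
        rw [h1 y]
        ring
      rw [h2]
      exact (Int _ _ (EP _ hg2E) hQ'E).sub (Int _ _ hGP hQ'E)
    simp_rw [h1]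
    rw [integral_add (Int _ _ hGP hQ'E) hi, hGQ', hW, add_zero]
  obtain ⟨w2, hw2E, hw2L, -⟩ := hG.1 g2 hg2E hg2Q
  set w : ℝ → ℝ := fun y => u y + w2 y with hw
  have hw2d : ∀ y, HasDerivAt w2 (deriv w2 y) y := hd_of_smooth hw2E.1
  have hw2d2 : ∀ y, HasDerivAt (deriv w2) (deriv (deriv w2) y) y := hd_of_smooth (Ed _ hw2E).1
  have hLw : Lop w = G := by
    funext y
    have d1 : deriv w = fun y => deriv u y + deriv w2 y := by
      funext y
      have e2 : HasDerivAt u (deriv u y) y := by
        rw [(hu1 y).deriv]; exact hu1 y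
      exact (e2.add (hw2d y)).deriv
    have d2 : deriv (deriv w) y = deriv (deriv u) y + deriv (deriv w2) y := by
      rw [d1]
      have e1 : HasDerivAt (deriv u) (deriv (deriv u) y) y := by
        rw [(hu2 y).deriv]; exact hu2 y
      exact (e1.add (hw2d2 y)).deriv
    have h3 := hw2L y
    rw [hg2] at h3
    simp only at h3
    unfold Lop at h3 ⊢
    rw [d2, hw]
    simp only
    linarith
  refine ⟨q, P1, w, ?_, ?_, hP1d, hq, ?_⟩
  · unfold HasTail
    have : (fun y => w y - q.eval y * chiM y) = w2 := by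
      funext y
      rw [hw, hu]
      ring
    rw [this]
    exact hw2E
  · rw [hLw]
    exact hGd
  · have : (fun y => Lop w y - P1.eval y * chiM y) = E1 := by
      funext y
      rw [hLw, hGdef]
      ring
    rw [this]
    exact hE1

end Pool.Agent.Helper56.KV
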