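import Pool.Agent.Helper48.KV.GoalsG1
import Pool.Agent.Helper36.KL.Base

/-!
# Project KV, packet NL: the nonlinear part
-/

open MeasureTheory Set Filter Topology

noncomputable section

namespace Pool.Agent.Helper56.KV

open Pool.Agent.Helper33.KV Pool.Agent.Helper41.KV Pool.Agent.Helper48.KV

/-- The constant. -/
def NA (K CV : ℝ) : ℝ := 100000000 * K * CV ^ 8

lemma aux1 {t : ℝ} : 1 + t ≤ 2 * (1 + t ^ 2) ^ 2 := by
  nlinarith [sq_nonneg (t - 1), sq_nonneg t, sq_nonneg (t ^ 2)]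

lemma aux2 {ρ t : ℝ} : ρ * (1 + t) ≤ 1 + ρ ^ 2 * (4 + t ^ 2) := by
  nlinarith [sq_nonneg (ρ * (1 + t) - 1), mul_nonneg (sq_nonneg ρ) (sq_nonneg (t - 1)),
    mul_nonneg (sq_nonneg ρ) (sq_nonneg t), sq_nonneg ρ]

lemma aux5 {t : ℝ} : t ^ 5 ≤ t ^ 2 + t ^ 6 := by
  have h4 : 0 ≤ 1 + t ^ 4 - t ^ 3 := by
    nlinarith [sq_nonneg (t ^ 2 - t), sq_nonneg (t ^ 2 - 1)]
  have h5 : 0 ≤ t ^ 2 * (1 + t ^ 4 - t ^ 3) := mul_nonneg (sq_nonneg _) h4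
  nlinarith

lemma aux4 {g a b : ℝ} : g * (4 * a + b) ≤ 1 / 20 * (a ^ 2 + b ^ 2) + 85 * g ^ 2 := by
  nlinarith [sq_nonneg (a - 40 * g), sq_nonneg (b - 10 * g)]

lemma aux_x4 {x r : ℝ} : (x + r) ^ 4 ≤ 8 * (x ^ 4 + r ^ 4) := by
  have h1 : (x + r) ^ 2 ≤ 2 * (x ^ 2 + r ^ 2) := by nlinarith [sq_nonneg (x - r)]
  have h2 : (x ^ 2 + r ^ 2) ^ 2 ≤ 2 * (x ^ 4 + r ^ 4) := by nlinarith [sq_nonneg (x ^ 2 - r ^ 2)]
  have h3 : 0 ≤ (x + r) ^ 2 := sq_nonneg _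
  calc (x + r) ^ 4 = ((x + r) ^ 2) ^ 2 := by ring
    _ ≤ (2 * (x ^ 2 + r ^ 2)) ^ 2 := pow_le_pow_left₀ h3 h1 2
    _ = 4 * (x ^ 2 + r ^ 2) ^ 2 := by ring
    _ ≤ 8 * (x ^ 4 + r ^ 4) := by linarith

/-- Pointwise bound. -/
lemma nl_point {α K ρ CV v d e e1 e2 y φ p p2 : ℝ} {m : ℕ} (hα0 : 0 < α) (hα1 : α < 1)
    (hK : 8 ≤ K) (hCV : 1 ≤ CV) (hρ : 0 < ρ) (hρ1 : ρ ≤ 1) (hφ : 0 < φ)
    (hp : 0 < p) (hpφ : p ≤ φ / K) (hp2 : |p2| ≤ p / K)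
    (hv : |v| ≤ CV * (Real.exp (-(|y| / 2)) + Real.sqrt ρ)) (hd : |d| ≤ CV * ρ)
    (hpe : p * Real.exp (-(2 * |y|)) ≤ ρ * φ)
    (hPW : ρ ^ 2 * (1 + y ^ 2) ^ 2 * p ≤ p + ρ ^ m) (hALG : S_ALG) :
    |(-((2 * ((2 * α + 1) * ρ) * φ - p * ((2 * α + 1) * ρ * y + 2 * α * K * ρ)) * nGG v e / 3)
      - 2 * φ * nG2 v e * d + 2 * p * nG v e * e - nG v e * (4 * p * e2 + 2 * p2 * e1)
      - p * nG v e ^ 2)| ≤
      NA K CV * (ρ * (φ * e ^ 2)) + NA K CV * (ρ * (φ * e ^ 6)) + NA K CV * (ρ ^ (m + 1) * e ^ 2)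
      + NA K CV * (p * e ^ 6) + NA K CV * (ρ ^ 2 * (4 + y ^ 2) * p * e ^ 6)
      + NA K CV * (p * e ^ 10) + 1 / 20 * (p * (e2 ^ 2 + e1 ^ 2)) := by
  obtain ⟨gGG, gG, gGe, gG2, gGsq, -⟩ := hALG v e
  have hK0 : 0 < K := by linarith
  have hCV0 : 0 < CV := by linarith
  have hpφ' : p ≤ φ := hpφ.trans (div_le_self hφ.le (by linarith))
  have hs0 : 0 ≤ Real.sqrt ρ := Real.sqrt_nonneg _
  have hs1 : Real.sqrt ρ ≤ 1 := by
    rw [show (1 : ℝ) = Real.sqrt 1 by simp]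
    exact Real.sqrt_le_sqrt hρ1
  have hss : Real.sqrt ρ ^ 2 = ρ := Real.sq_sqrt hρ.le
  have hy0 : 0 ≤ |y| := abs_nonneg y
  set x := Real.exp (-(|y| / 2)) with hx
  have hx0 : 0 < x := Real.exp_pos _
  have hx1 : x ≤ 1 := by rw [hx]; apply Real.exp_le_one_iff.2; linarith
  have hx4 : x ^ 4 = Real.exp (-(2 * |y|)) := by
    rw [hx, ← Real.exp_nat_mul]; congr 1; push_cast; ring
  have hv2 : |v| ≤ 2 * CV := by
    calc |v| ≤ CV * (x + Real.sqrt ρ) := hv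
      _ ≤ CV * (1 + 1) := by gcongr
      _ = 2 * CV := by ring
  have hv0 := abs_nonneg v
  have hv4a : v ^ 4 = |v| ^ 4 := by
    rw [← abs_pow, abs_of_nonneg (by positivity)]
  have hv4 : v ^ 4 ≤ 16 * CV ^ 4 := by
    rw [hv4a]
    calc |v| ^ 4 ≤ (2 * CV) ^ 4 := pow_le_pow_left₀ hv0 hv2 4
      _ = 16 * CV ^ 4 := by ring
  have hv4' : v ^ 4 ≤ 8 * CV ^ 4 * (Real.exp (-(2 * |y|)) + ρ ^ 2) := by
    rw [hv4a, ← hx4]
    have e1 : (x + Real.sqrt ρ) ^ 4 ≤ 8 * (x ^ 4 + Real.sqrt ρ ^ 4) := aux_x4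
    have e2 : Real.sqrt ρ ^ 4 = ρ ^ 2 := by
      rw [show (4 : ℕ) = 2 * 2 by norm_num, pow_mul, hss]
    calc |v| ^ 4 ≤ (CV * (x + Real.sqrt ρ)) ^ 4 := pow_le_pow_left₀ hv0 hv 4
      _ = CV ^ 4 * (x + Real.sqrt ρ) ^ 4 := by ring
      _ ≤ CV ^ 4 * (8 * (x ^ 4 + Real.sqrt ρ ^ 4)) := mul_le_mul_of_nonneg_left e1 (by positivity)
      _ = 8 * CV ^ 4 * (x ^ 4 + ρ ^ 2) := by rw [e2]; ring
  have hCV4 : 0 < CV ^ 4 := by positivity
  have hρφ : 0 < ρ * φ := by positivity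
  have hpv4 : p * v ^ 4 ≤ 16 * CV ^ 4 * (ρ * φ) := by
    have e1 : ρ ^ 2 * p ≤ ρ * φ := by
      calc ρ ^ 2 * p ≤ ρ ^ 2 * φ := by gcongr
        _ = ρ * (ρ * φ) := by ring
        _ ≤ 1 * (ρ * φ) := by gcongr
        _ = ρ * φ := one_mul _
    calc p * v ^ 4 ≤ p * (8 * CV ^ 4 * (Real.exp (-(2 * |y|)) + ρ ^ 2)) := by gcongr
      _ = 8 * CV ^ 4 * (p * Real.exp (-(2 * |y|)) + ρ ^ 2 * p) := by ring
      _ ≤ 8 * CV ^ 4 * (ρ * φ + ρ * φ) := by gcongr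
      _ = 16 * CV ^ 4 * (ρ * φ) := by ring
  have hv40 : 0 ≤ v ^ 4 := by positivity
  have hpv8 : p * v ^ 8 ≤ 256 * CV ^ 8 * (ρ * φ) := by
    calc p * v ^ 8 = (p * v ^ 4) * v ^ 4 := by ring
      _ ≤ (16 * CV ^ 4 * (ρ * φ)) * (16 * CV ^ 4) := by gcongr
      _ = 256 * CV ^ 8 * (ρ * φ) := by ring
  have hv3 : |v| ^ 3 ≤ 8 * CV ^ 3 := by
    calc |v| ^ 3 ≤ (2 * CV) ^ 3 := pow_le_pow_left₀ hv0 hv2 3
      _ = 8 * CV ^ 3 := by ring
  have hyexp : (1 + |y|) * Real.exp (-(2 * |y|)) ≤ 1 := by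
    have h1 : 1 + |y| ≤ Real.exp (2 * |y|) := by
      have := Real.add_one_le_exp (2 * |y|)
      linarith
    have h2 : 0 < Real.exp (-(2 * |y|)) := Real.exp_pos _
    calc (1 + |y|) * Real.exp (-(2 * |y|)) ≤ Real.exp (2 * |y|) * Real.exp (-(2 * |y|)) := by
          gcongr
      _ = 1 := by rw [← Real.exp_add]; simp
  have hyy : |y| ^ 2 = y ^ 2 := sq_abs y
  have hyv4 : ρ * (1 + |y|) * p * v ^ 4 ≤ 8 * CV ^ 4 * (3 * (ρ * φ) + 2 * ρ ^ (m + 1)) := by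
    have e1 : ρ ^ 2 * (1 + |y|) * p ≤ 2 * (ρ ^ 2 * (1 + y ^ 2) ^ 2 * p) := by
      have : 1 + |y| ≤ 2 * (1 + y ^ 2) ^ 2 := by
        rw [← hyy]
        exact aux1
      calc ρ ^ 2 * (1 + |y|) * p ≤ ρ ^ 2 * (2 * (1 + y ^ 2) ^ 2) * p := by gcongr
        _ = _ := by ring
    have e2 : ρ * (ρ ^ 2 * (1 + |y|) * p) ≤ 2 * (ρ * φ) + 2 * ρ ^ (m + 1) := by
      calc ρ * (ρ ^ 2 * (1 + |y|) * p) ≤ ρ * (2 * (p + ρ ^ m)) := by
            apply mul_le_mul_of_nonneg_left _ hρ.le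
            linarith
        _ ≤ ρ * (2 * (φ + ρ ^ m)) := by gcongr
        _ = 2 * (ρ * φ) + 2 * ρ ^ (m + 1) := by ring
    have e3 : ρ * p ≤ ρ * φ := by gcongr
    calc ρ * (1 + |y|) * p * v ^ 4
        ≤ ρ * (1 + |y|) * p * (8 * CV ^ 4 * (Real.exp (-(2 * |y|)) + ρ ^ 2)) := by gcongr
      _ = 8 * CV ^ 4 * (ρ * p * ((1 + |y|) * Real.exp (-(2 * |y|))) +
            ρ * (ρ ^ 2 * (1 + |y|) * p)) := by ring
      _ ≤ 8 * CV ^ 4 * (ρ * p * 1 + (2 * (ρ * φ) + 2 * ρ ^ (m + 1))) := by gcongr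
      _ ≤ 8 * CV ^ 4 * (ρ * φ + (2 * (ρ * φ) + 2 * ρ ^ (m + 1))) := by
          rw [mul_one]
          gcongr
      _ = _ := by ring
  have hy6 : ρ * (1 + |y|) * p ≤ p + ρ ^ 2 * (4 + y ^ 2) * p := by
    have : ρ * (1 + |y|) ≤ 1 + ρ ^ 2 * (4 + y ^ 2) := by
      rw [← hyy]
      exact aux2
    have h2 := mul_le_mul_of_nonneg_right this hp.le
    linarith
  have he2 : 0 ≤ e ^ 2 := sq_nonneg e
  have he6 : 0 ≤ e ^ 6 := by positivity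
  have he5 : |e| ^ 5 ≤ e ^ 2 + e ^ 6 := by
    have h1 : e ^ 2 = |e| ^ 2 := (sq_abs e).symm
    have h2 : e ^ 6 = |e| ^ 6 := by rw [← abs_pow, abs_of_nonneg he6]
    rw [h1, h2]
    exact aux5
  have he10 : 0 ≤ e ^ 10 := by positivity
  have hT : 0 ≤ v ^ 4 * e ^ 2 + e ^ 6 := by positivity
  -- the six terms
  have t1 : |2 * ((2 * α + 1) * ρ) * φ * nGG v e / 3| ≤
      1920 * CV ^ 4 * (ρ * (φ * e ^ 2)) + 120 * (ρ * (φ * e ^ 6)) := by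
    have h1 : 2 * ((2 * α + 1) * ρ) * φ * nGG v e / 3 =
        (2 * ((2 * α + 1) * ρ) * φ / 3) * nGG v e := by ring
    have h2 : 0 ≤ 2 * ((2 * α + 1) * ρ) * φ / 3 := by positivity
    have h3 : 2 * ((2 * α + 1) * ρ) * φ / 3 ≤ 2 * (ρ * φ) := by
      have h4 : (2 * α + 1) * (ρ * φ) ≤ 3 * (ρ * φ) := by gcongr; linarith
      linarith
    rw [h1, abs_mul, abs_of_nonneg h2]
    calc 2 * ((2 * α + 1) * ρ) * φ / 3 * |nGG v e|
        ≤ 2 * (ρ * φ) * (60 * (v ^ 4 * e ^ 2 + e ^ 6)) := by gcongr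
      _ ≤ 2 * (ρ * φ) * (60 * (16 * CV ^ 4 * e ^ 2 + e ^ 6)) := by gcongr
      _ = _ := by ring
  have t2 : |p * ((2 * α + 1) * ρ * y + 2 * α * K * ρ) * nGG v e / 3| ≤
      20 * (2 * K + 3) * (8 * CV ^ 4 * (3 * (ρ * φ) + 2 * ρ ^ (m + 1)) * e ^ 2 +
        (p + ρ ^ 2 * (4 + y ^ 2) * p) * e ^ 6) := by
    have h1 : p * ((2 * α + 1) * ρ * y + 2 * α * K * ρ) * nGG v e / 3 =
        (p / 3) * ((2 * α + 1) * ρ * y + 2 * α * K * ρ) * nGG v e := by ring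
    have h2 : |(2 * α + 1) * ρ * y + 2 * α * K * ρ| ≤ (2 * K + 3) * (ρ * (1 + |y|)) := by
      refine (abs_add_le _ _).trans ?_
      rw [abs_mul, abs_of_pos (by positivity : 0 < (2 * α + 1) * ρ),
        abs_of_pos (by positivity : 0 < 2 * α * K * ρ)]
      have e1 : (2 * α + 1) * ρ * |y| ≤ 3 * ρ * |y| := by gcongr; linarith
      have e2 : 2 * α * K * ρ ≤ 2 * 1 * K * ρ := by gcongr
      have e3 : 0 ≤ ρ * |y| * K := by positivity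
      have e4 : (2 * K + 3) * (ρ * (1 + |y|)) =
        2 * (ρ * |y| * K) + 3 * ρ * |y| + 2 * 1 * K * ρ + 3 * ρ := by ring
      rw [e4]
      linarith
    rw [h1, abs_mul, abs_mul, abs_of_pos (by positivity : 0 < p / 3)]
    calc p / 3 * |(2 * α + 1) * ρ * y + 2 * α * K * ρ| * |nGG v e|
        ≤ p / 3 * ((2 * K + 3) * (ρ * (1 + |y|))) * (60 * (v ^ 4 * e ^ 2 + e ^ 6)) := by gcongr
      _ = 20 * (2 * K + 3) * ((ρ * (1 + |y|) * p * v ^ 4) * e ^ 2 +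
            (ρ * (1 + |y|) * p) * e ^ 6) := by ring
      _ ≤ _ := by gcongr
  have t3 : |2 * φ * nG2 v e * d| ≤
      720 * CV ^ 4 * (ρ * (φ * e ^ 2)) + 80 * CV * (ρ * (φ * e ^ 6)) := by
    rw [abs_mul, abs_mul, abs_of_pos (by positivity : 0 < 2 * φ)]
    calc 2 * φ * |nG2 v e| * |d|
        ≤ 2 * φ * (40 * (|v| ^ 3 * e ^ 2 + |e| ^ 5)) * (CV * ρ) := by gcongr
      _ ≤ 2 * φ * (40 * (8 * CV ^ 3 * e ^ 2 + (e ^ 2 + e ^ 6))) * (CV * ρ) := by gcongr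
      _ ≤ 2 * φ * (40 * (8 * CV ^ 3 * e ^ 2 + (CV ^ 3 * e ^ 2 + e ^ 6))) * (CV * ρ) := by
          have : e ^ 2 ≤ CV ^ 3 * e ^ 2 := le_mul_of_one_le_left he2 (one_le_pow₀ hCV)
          gcongr
      _ = _ := by ring
  have t4 : |2 * p * nG v e * e| ≤
      1280 * CV ^ 4 * (ρ * (φ * e ^ 2)) + 80 * (p * e ^ 6) := by
    have h1 : 2 * p * nG v e * e = 2 * p * (nG v e * e) := by ring
    rw [h1, abs_mul, abs_of_pos (by positivity : 0 < 2 * p)]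
    calc 2 * p * |nG v e * e| ≤ 2 * p * (40 * (v ^ 4 * e ^ 2 + e ^ 6)) := by gcongr
      _ = 80 * ((p * v ^ 4) * e ^ 2 + p * e ^ 6) := by ring
      _ ≤ 80 * ((16 * CV ^ 4 * (ρ * φ)) * e ^ 2 + p * e ^ 6) := by gcongr
      _ = _ := by ring
  have t6 : p * nG v e ^ 2 ≤
      819200 * CV ^ 8 * (ρ * (φ * e ^ 2)) + 3200 * (p * e ^ 10) := by
    calc p * nG v e ^ 2 ≤ p * (3200 * (v ^ 8 * e ^ 2 + e ^ 10)) := by gcongr
      _ = 3200 * ((p * v ^ 8) * e ^ 2 + p * e ^ 10) := by ring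
      _ ≤ 3200 * ((256 * CV ^ 8 * (ρ * φ)) * e ^ 2 + p * e ^ 10) := by gcongr
      _ = _ := by ring
  have t6n : 0 ≤ p * nG v e ^ 2 := by positivity
  have t5 : |nG v e * (4 * p * e2 + 2 * p2 * e1)| ≤
      1 / 20 * (p * (e2 ^ 2 + e1 ^ 2)) + 85 * (p * nG v e ^ 2) := by
    have h1 : |4 * p * e2 + 2 * p2 * e1| ≤ p * (4 * |e2| + |e1|) := by
      refine (abs_add_le _ _).trans ?_
      rw [abs_mul, abs_mul (2 * p2) e1, abs_mul 2 p2, abs_of_pos (by positivity : 0 < 4 * p),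
        abs_of_pos (by norm_num : (0 : ℝ) < 2)]
      have e1' : 2 * |p2| ≤ p := by
        have : p / K ≤ p / 2 := by gcongr; linarith
        linarith
      have : 2 * |p2| * |e1| ≤ p * |e1| := by gcongr
      linarith
    have hg : |nG v e| ^ 2 = nG v e ^ 2 := sq_abs _
    have h2 : |e2| ^ 2 = e2 ^ 2 := sq_abs _
    have h3 : |e1| ^ 2 = e1 ^ 2 := sq_abs _
    have h4 : |nG v e| * (4 * |e2| + |e1|) ≤ 1 / 20 * (e2 ^ 2 + e1 ^ 2) + 85 * nG v e ^ 2 := by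
      rw [← hg, ← h2, ← h3]
      exact aux4
    rw [abs_mul]
    calc |nG v e| * |4 * p * e2 + 2 * p2 * e1| ≤ |nG v e| * (p * (4 * |e2| + |e1|)) := by
          gcongr
      _ = p * (|nG v e| * (4 * |e2| + |e1|)) := by ring
      _ ≤ p * (1 / 20 * (e2 ^ 2 + e1 ^ 2) + 85 * nG v e ^ 2) := by gcongr
      _ = _ := by ring
  -- assembly
  set X1 := ρ * (φ * e ^ 2) with hX1
  set X2 := ρ * (φ * e ^ 6) with hX2
  set X3 := ρ ^ (m + 1) * e ^ 2 with hX3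
  set X4 := p * e ^ 6 with hX4
  set X5 := ρ ^ 2 * (4 + y ^ 2) * p * e ^ 6 with hX5
  set X6 := p * e ^ 10 with hX6
  set X7 := p * (e2 ^ 2 + e1 ^ 2) with hX7
  have n1 : 0 ≤ X1 := by positivity
  have n2 : 0 ≤ X2 := by positivity
  have n3 : 0 ≤ X3 := by positivity
  have n4 : 0 ≤ X4 := by positivity
  have n5 : 0 ≤ X5 := by positivity
  have n6 : 0 ≤ X6 := by positivity
  have t2' : 20 * (2 * K + 3) * (8 * CV ^ 4 * (3 * (ρ * φ) + 2 * ρ ^ (m + 1)) * e ^ 2 +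
        (p + ρ ^ 2 * (4 + y ^ 2) * p) * e ^ 6) =
      480 * (2 * K + 3) * CV ^ 4 * X1 + 320 * (2 * K + 3) * CV ^ 4 * X3 +
        20 * (2 * K + 3) * X4 + 20 * (2 * K + 3) * X5 := by
    rw [hX1, hX3, hX4, hX5]; ring
  rw [t2'] at t2
  obtain ⟨u, hu⟩ : ∃ u, u = K * CV ^ 8 := ⟨_, rfl⟩
  have q0 : 1 ≤ CV ^ 8 := one_le_pow₀ hCV
  have q1 : CV ^ 4 ≤ CV ^ 8 := pow_le_pow_right₀ hCV (by norm_num)
  have q2 : CV ≤ CV ^ 8 := by
    calc CV = CV ^ 1 := (pow_one _).symm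
      _ ≤ CV ^ 8 := pow_le_pow_right₀ hCV (by norm_num)
  have u1 : 8 * CV ^ 8 ≤ u := by rw [hu]; gcongr
  have u2 : K * CV ^ 4 ≤ u := by rw [hu]; gcongr
  have u3 : K ≤ u := by rw [hu]; exact le_mul_of_one_le_right hK0.le q0
  have hA : NA K CV = 100000000 * u := by rw [NA, hu]; ring
  rw [hA]
  have c1 : 1920 * CV ^ 4 + 480 * (2 * K + 3) * CV ^ 4 + 720 * CV ^ 4 + 1280 * CV ^ 4 +
      86 * (819200 * CV ^ 8) ≤ 100000000 * u := by linarith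
  have c2 : 120 + 80 * CV ≤ 100000000 * u := by linarith
  have c3 : 320 * (2 * K + 3) * CV ^ 4 ≤ 100000000 * u := by linarith
  have c4 : 20 * (2 * K + 3) + 80 ≤ 100000000 * u := by linarith
  have c5 : 20 * (2 * K + 3) ≤ 100000000 * u := by linarith
  have c6 : 86 * 3200 ≤ 100000000 * u := by linarith
  have m1 := mul_le_mul_of_nonneg_right c1 n1
  have m2 := mul_le_mul_of_nonneg_right c2 n2
  have m3 := mul_le_mul_of_nonneg_right c3 n3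
  have m4 := mul_le_mul_of_nonneg_right c4 n4
  have m5 := mul_le_mul_of_nonneg_right c5 n5
  have m6 := mul_le_mul_of_nonneg_right c6 n6
  obtain ⟨a1, b1⟩ := abs_le.1 t1
  obtain ⟨a2, b2⟩ := abs_le.1 t2
  obtain ⟨a3, b3⟩ := abs_le.1 t3
  obtain ⟨a4, b4⟩ := abs_le.1 t4
  obtain ⟨a5, b5⟩ := abs_le.1 t5
  have hsplit : (-((2 * ((2 * α + 1) * ρ) * φ - p * ((2 * α + 1) * ρ * y + 2 * α * K * ρ)) *
      nGG v e / 3) - 2 * φ * nG2 v e * d + 2 * p * nG v e * e -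
      nG v e * (4 * p * e2 + 2 * p2 * e1) - p * nG v e ^ 2) =
      -(2 * ((2 * α + 1) * ρ) * φ * nGG v e / 3) +
      p * ((2 * α + 1) * ρ * y + 2 * α * K * ρ) * nGG v e / 3 - 2 * φ * nG2 v e * d +
      2 * p * nG v e * e - nG v e * (4 * p * e2 + 2 * p2 * e1) - p * nG v e ^ 2 := by ring
  rw [hsplit, abs_le]
  constructor
  · linarith
  · linarith

/-- Bounded continuous weight times an integrable function. -/
lemma int_w {w g : ℝ → ℝ} {M : ℝ} (hw : Continuous w) (hwb : ∀ y, |w y| ≤ M)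
    (hg : Integrable g) : Integrable (fun y => w y * g y) := by
  refine (hg.norm.const_mul M).mono' (hw.aestronglyMeasurable.mul hg.aestronglyMeasurable)
    (ae_of_all _ fun y => ?_)
  rw [norm_mul]
  exact mul_le_mul_of_nonneg_right (hwb y) (norm_nonneg _)

/-- The weight `ψ`. -/
def psiW (K ρ y : ℝ) : ℝ := ρ ^ 2 * (4 + y ^ 2) * ph1 K ρ y

/-- Facts on the three weights. -/
lemma weights (hWT : S_WT0) {K ρ : ℝ} (hK : 8 ≤ K) (hρ : 0 < ρ) {m : ℕ}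
    (hρ1 : ρ ≤ 1) (hPW : ∀ y : ℝ, ρ ^ 2 * (1 + y ^ 2) ^ 2 * ph1 K ρ y ≤ ph1 K ρ y + ρ ^ m) :
    (ContDiff ℝ 1 (wt K ρ) ∧ (∀ y, 0 < wt K ρ y) ∧ (∀ y, wt K ρ y ≤ 1) ∧
      ∀ y, |deriv (wt K ρ) y| ≤ wt K ρ y) ∧
    (ContDiff ℝ 1 (ph1 K ρ) ∧ (∀ y, 0 < ph1 K ρ y) ∧ (∀ y, ph1 K ρ y ≤ 1) ∧
      ∀ y, |deriv (ph1 K ρ) y| ≤ ph1 K ρ y) ∧
    (ContDiff ℝ 1 (psiW K ρ) ∧ (∀ y, 0 < psiW K ρ y) ∧ (∀ y, psiW K ρ y ≤ 8) ∧
      ∀ y, |deriv (psiW K ρ) y| ≤ psiW K ρ y) ∧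
    (∀ y, psiW K ρ y ≤ 4 * (ph1 K ρ y + ρ ^ m)) ∧
    ∀ y, ph1 K ρ y * Real.exp (-(2 * |y|)) ≤ ρ * wt K ρ y := by
  have hK0 : 0 < K := by linarith
  obtain ⟨c1, c2, c3, c4, c5, c6, c7, c8, -⟩ := hWT K ρ hK0 hρ
  have hcoe : ((1 : ℕ∞) : WithTop ℕ∞) ≤ ((⊤ : ℕ∞) : WithTop ℕ∞) := WithTop.coe_le_coe.2 le_top
  have d1 : ContDiff ℝ 1 (wt K ρ) := c1.of_le hcoe
  have d2 : ContDiff ℝ 1 (ph1 K ρ) := c2.of_le hcoe
  have p1 : ∀ y, ph1 K ρ y ≤ wt K ρ y := fun y =>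
    (c8 y).2.1.trans (div_le_self (c3 y).1.le (by linarith))
  have hm1 : ρ ^ m ≤ 1 := pow_le_one₀ hρ.le hρ1
  have e4 : ∀ y, psiW K ρ y ≤ 4 * (ph1 K ρ y + ρ ^ m) := by
    intro y
    have h1 := hPW y
    have h2 := (c8 y).1
    have h3 : (4 + y ^ 2) ≤ 4 * (1 + y ^ 2) ^ 2 := by nlinarith [sq_nonneg y, sq_nonneg (y ^ 2)]
    calc psiW K ρ y = ρ ^ 2 * (4 + y ^ 2) * ph1 K ρ y := rfl
      _ ≤ ρ ^ 2 * (4 * (1 + y ^ 2) ^ 2) * ph1 K ρ y := by gcongr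
      _ = 4 * (ρ ^ 2 * (1 + y ^ 2) ^ 2 * ph1 K ρ y) := by ring
      _ ≤ _ := by linarith
  refine ⟨⟨d1, fun y => (c3 y).1, fun y => (c3 y).2.le, fun y => ?_⟩,
    ⟨d2, fun y => (c8 y).1, fun y => (p1 y).trans (c3 y).2.le, fun y => ?_⟩,
    ⟨?_, fun y => ?_, fun y => ?_, fun y => ?_⟩, e4, fun y => ?_⟩
  · rw [(c5 y).deriv, abs_of_pos (c8 y).1]
    exact p1 y
  · rw [(c6 y).deriv]
    exact (c8 y).2.2.1.trans (div_le_self (c8 y).1.le (by linarith))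
  · unfold psiW
    exact (contDiff_const.mul (contDiff_const.add (contDiff_id.pow 2))).mul d2
  · have := (c8 y).1
    unfold psiW
    positivity
  · have h1 := e4 y
    have h2 := (p1 y).trans (c3 y).2.le
    linarith
  · have h1 : HasDerivAt (psiW K ρ)
        (ρ ^ 2 * (2 * y) * ph1 K ρ y + ρ ^ 2 * (4 + y ^ 2) * ph2 K ρ y) y := by
      have h2 : HasDerivAt (fun y : ℝ => ρ ^ 2 * (4 + y ^ 2)) (ρ ^ 2 * (2 * y)) y := by
        have h3 : HasDerivAt (fun y : ℝ => y ^ 2) (2 * y) y := by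
          simpa using hasDerivAt_pow 2 y
        exact (h3.const_add 4).const_mul (ρ ^ 2)
      exact h2.mul (c6 y)
    rw [h1.deriv]
    have hp := (c8 y).1
    have hp2 := (c8 y).2.2.1
    have hy2 : |y| ^ 2 = y ^ 2 := sq_abs y
    have h4 : 2 * |y| + (4 + y ^ 2) / K ≤ 4 + y ^ 2 := by
      have : (4 + y ^ 2) / K ≤ (4 + y ^ 2) / 8 := by gcongr
      rw [← hy2] at this ⊢
      nlinarith [sq_nonneg (|y| - 2)]
    refine (abs_add_le _ _).trans ?_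
    have h5 : |ρ ^ 2 * (2 * y) * ph1 K ρ y| = ρ ^ 2 * (2 * |y|) * ph1 K ρ y := by
      rw [abs_mul, abs_mul, abs_mul, abs_of_pos hp, abs_of_pos (by positivity : 0 < ρ ^ 2),
        abs_of_pos (by norm_num : (0 : ℝ) < 2)]
    have h6 : |ρ ^ 2 * (4 + y ^ 2) * ph2 K ρ y| ≤ ρ ^ 2 * (4 + y ^ 2) * (ph1 K ρ y / K) := by
      rw [abs_mul, abs_of_pos (by positivity : 0 < ρ ^ 2 * (4 + y ^ 2))]
      gcongr
    calc |ρ ^ 2 * (2 * y) * ph1 K ρ y| + |ρ ^ 2 * (4 + y ^ 2) * ph2 K ρ y|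
        ≤ ρ ^ 2 * (2 * |y|) * ph1 K ρ y + ρ ^ 2 * (4 + y ^ 2) * (ph1 K ρ y / K) := by
          rw [h5]; gcongr
      _ = ρ ^ 2 * (2 * |y| + (4 + y ^ 2) / K) * ph1 K ρ y := by ring
      _ ≤ ρ ^ 2 * (4 + y ^ 2) * ph1 K ρ y := by gcongr
      _ = psiW K ρ y := rfl
  · have hw := (c3 y).1
    have hw1 := (c3 y).2
    have h1 : ph1 K ρ y = wt K ρ y * (ρ * Real.exp (-(y / K)) * wt K ρ y) / K := by
      rw [← c4 y]; rfl
    have h2 : Real.exp (-(y / K)) * Real.exp (-(2 * |y|)) ≤ 1 := by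
      rw [← Real.exp_add, Real.exp_le_one_iff]
      have h3 : -(y / K) ≤ |y| := by
        have h4 : |y / K| ≤ |y| := by
          rw [abs_div, abs_of_pos hK0]
          exact div_le_self (abs_nonneg y) (by linarith)
        exact (neg_le_abs _).trans h4
      have := abs_nonneg y
      linarith
    calc ph1 K ρ y * Real.exp (-(2 * |y|))
        = ρ * wt K ρ y * (wt K ρ y * (Real.exp (-(y / K)) * Real.exp (-(2 * |y|))) / K) := by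
          rw [h1]; ring
      _ ≤ ρ * wt K ρ y * (1 * 1 / 1) := by gcongr; linarith
      _ = ρ * wt K ρ y := by ring

/-- The final numerical step. -/
lemma nl_final {A ρ M Hn' D I1 I2 I4 I5 I6 I7 rm : ℝ} (hA : 1 ≤ A) (hρ : 0 < ρ)
    (hρA : A * ρ ≤ 1 / 2) (hM : 0 ≤ M) (hM1 : 100 * A * M ≤ 1) (hH : 0 ≤ Hn') (hD : 0 ≤ D)
    (hrm : 0 ≤ rm) (h1 : I1 ≤ Hn') (h2 : I2 ≤ 8 * M ^ 2 * Hn') (h4 : I4 ≤ 8 * M ^ 2 * D)
    (h5 : I5 ≤ 40 * M ^ 2 * (D + rm * M)) (h6 : I6 ≤ 256 * M ^ 4 * D) (h7 : I7 ≤ D) :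
    A * (ρ * I1) + A * (ρ * I2) + A * (rm * ρ * M) + A * I4 + A * I5 + A * I6 + 1 / 20 * I7 ≤
      9 * A * ρ * Hn' + 1 / 4 * D + rm * M := by
  have hA0 : 0 < A := by linarith
  have hM01 : M ≤ 1 / 100 := by nlinarith
  have hM2 : M ^ 2 ≤ 1 := by nlinarith
  have hAM2 : 100 * (A * M ^ 2) ≤ 1 / 100 := by
    have e1 : 100 * (A * M ^ 2) = (100 * A * M) * M := by ring
    rw [e1]
    calc (100 * A * M) * M ≤ 1 * M := mul_le_mul_of_nonneg_right hM1 hM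
      _ ≤ 1 / 100 := by linarith
  have hM4 : M ^ 4 ≤ M ^ 2 := by
    have e1 : M ^ 4 = M ^ 2 * M ^ 2 := by ring
    rw [e1]
    exact mul_le_of_le_one_left (sq_nonneg _) hM2
  have hAρ : 0 ≤ A * ρ := by positivity
  have t1 : A * (ρ * I1) ≤ A * ρ * Hn' := by
    have := mul_le_mul_of_nonneg_left h1 hAρ
    linarith
  have t2 : A * (ρ * I2) ≤ 8 * (A * ρ * Hn') := by
    have e1 := mul_le_mul_of_nonneg_left h2 hAρ
    have e2 : M ^ 2 * (A * ρ * Hn') ≤ 1 * (A * ρ * Hn') :=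
      mul_le_mul_of_nonneg_right hM2 (mul_nonneg hAρ hH)
    linarith
  have hrmM : 0 ≤ rm * M := mul_nonneg hrm hM
  have t3 : A * (rm * ρ * M) ≤ 1 / 2 * (rm * M) := by
    have e1 := mul_le_mul_of_nonneg_right hρA hrmM
    linarith
  have t4 : A * I4 ≤ 1 / 1000 * D := by
    have e1 := mul_le_mul_of_nonneg_left h4 hA0.le
    have e2 := mul_le_mul_of_nonneg_right hAM2 hD
    linarith
  have t5 : A * I5 ≤ 1 / 250 * (D + rm * M) := by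
    have e1 := mul_le_mul_of_nonneg_left h5 hA0.le
    have e2 := mul_le_mul_of_nonneg_right hAM2 (add_nonneg hD hrmM)
    linarith
  have t6 : A * I6 ≤ 256 / 10000 * D := by
    have e1 := mul_le_mul_of_nonneg_left h6 hA0.le
    have e2 := mul_le_mul_of_nonneg_right hAM2 hD
    have e3 : A * (256 * M ^ 4 * D) ≤ A * (256 * M ^ 2 * D) := by gcongr
    linarith
  linarith

theorem nl (h1 : S_WT0) (h2 : S_ALG) (h3 : S_PW) (h4 : S_INTERP) (h5 : S_WGN) : S_NL := by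
  intro α hα0 hα1 K hK CV m hCV
  have hK1 : 1 ≤ K := by linarith
  have hK0 : 0 < K := by linarith
  obtain ⟨ρa, hρa, hρa1, hPW⟩ := h3 K hK1 m 1 one_pos
  obtain ⟨ρb, hρb, hρb1, hIN⟩ := h4 K hK1 m 1 one_pos
  set A := NA K CV with hA
  have hA1 : 1 ≤ A := by
    have q0 : 1 ≤ CV ^ 8 := one_le_pow₀ hCV
    rw [hA, NA]
    nlinarith
  have hA0 : 0 < A := by linarith
  refine ⟨9 * A, min (min ρa ρb) (1 / (2 * A)), 1 / (100 * A), by positivity, by positivity,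
    (min_le_left _ _).trans ((min_le_left _ _).trans hρa1), by positivity, ?_, ?_⟩
  · rw [div_le_one (by positivity)]
    linarith
  intro ρ hρ hρ0 v DV ε hv hDV hε hvb hDVb hM
  have hρa' : ρ ≤ ρa := hρ0.trans ((min_le_left _ _).trans (min_le_left _ _))
  have hρb' : ρ ≤ ρb := hρ0.trans ((min_le_left _ _).trans (min_le_right _ _))
  have hρA : A * ρ ≤ 1 / 2 := by
    have h := hρ0.trans (min_le_right _ _)
    rw [le_div_iff₀ (by positivity)] at h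
    linarith
  have hρ1 : ρ ≤ 1 := hρa'.trans hρa1
  have hPW' : ∀ y : ℝ, ρ ^ 2 * (1 + y ^ 2) ^ 2 * ph1 K ρ y ≤ ph1 K ρ y + ρ ^ m := fun y => by
    have := hPW ρ hρ hρa' y
    linarith
  obtain ⟨⟨a1, a2, a3, a4⟩, ⟨b1, b2, b3, b4⟩, ⟨c1, c2, c3, c4⟩, hψ, hpe⟩ :=
    weights h1 hK hρ hρ1 hPW'
  have hp8 := (h1 K ρ hK0 hρ).2.2.2.2.2.2.2.1
  -- the function
  have hεs : ContDiff ℝ (⊤ : ℕ∞) ε := hε.1
  have hcoe : ((2 : ℕ∞) : WithTop ℕ∞) ≤ ((⊤ : ℕ∞) : WithTop ℕ∞) := WithTop.coe_le_coe.2 le_top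
  have hε2 : ContDiff ℝ 2 ε := hεs.of_le hcoe
  have m0 : MemLp ε 2 := by simpa using hε.2 0
  have i1 : iteratedDeriv 1 ε = deriv ε := iteratedDeriv_one
  have i2 : iteratedDeriv 2 ε = deriv (deriv ε) := by
    rw [iteratedDeriv_succ, iteratedDeriv_one]
  have m1 : MemLp (deriv ε) 2 := by rw [← i1]; exact hε.2 1
  have m2 : MemLp (deriv (deriv ε)) 2 := by rw [← i2]; exact hε.2 2
  have ce : Continuous ε := hεs.continuous
  have ce1 : Continuous (deriv ε) := by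
    rw [← i1]; exact (Pool.Agent.Helper36.KL.contDiff_iter hεs 1).continuous
  have ce2 : Continuous (deriv (deriv ε)) := by
    rw [← i2]; exact (Pool.Agent.Helper36.KL.contDiff_iter hεs 2).continuous
  obtain ⟨Cb, hCb⟩ := Pool.Agent.Helper36.KL.exists_bound (u := ε) hε
  have s0 : Integrable (fun y => ε y ^ 2) := m0.integrable_sq
  have s1 : Integrable (fun y => deriv ε y ^ 2) := m1.integrable_sq
  have s2 : Integrable (fun y => deriv (deriv ε) y ^ 2) := m2.integrable_sq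
  have s6 : Integrable (fun y => ε y ^ 6) := by
    have := int_w (w := fun y => ε y ^ 4) (M := Cb ^ 4) (ce.pow 4) (fun y => by
      rw [abs_pow]; exact pow_le_pow_left₀ (abs_nonneg _) (hCb y) 4) s0
    refine this.congr (ae_of_all _ fun y => ?_)
    simp only
    ring
  have s10 : Integrable (fun y => ε y ^ 10) := by
    have := int_w (w := fun y => ε y ^ 8) (M := Cb ^ 8) (ce.pow 8) (fun y => by
      rw [abs_pow]; exact pow_le_pow_left₀ (abs_nonneg _) (hCb y) 8) s0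
    refine this.congr (ae_of_all _ fun y => ?_)
    simp only
    ring
  have cφ : Continuous (wt K ρ) := a1.continuous
  have cp : Continuous (ph1 K ρ) := b1.continuous
  have cψ : Continuous (psiW K ρ) := c1.continuous
  have bφ : ∀ y, |wt K ρ y| ≤ 1 := fun y => by rw [abs_of_pos (a2 y)]; exact a3 y
  have bp : ∀ y, |ph1 K ρ y| ≤ 1 := fun y => by rw [abs_of_pos (b2 y)]; exact b3 y
  have bψ : ∀ y, |psiW K ρ y| ≤ 8 := fun y => by rw [abs_of_pos (c2 y)]; exact c3 y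
  have wφ0 := int_w cφ bφ s0
  have wφ1 := int_w cφ bφ s1
  have wφ6 := int_w cφ bφ s6
  have wp0 := int_w cp bp s0
  have wp1 := int_w cp bp s1
  have wp2 := int_w cp bp s2
  have wp6 := int_w cp bp s6
  have wp10 := int_w cp bp s10
  have wψ0 := int_w cψ bψ s0
  have wψ1 := int_w cψ bψ s1
  have wψ6 := int_w cψ bψ s6
  -- integrals
  set M := ∫ y, ε y ^ 2 with hMdef
  set Hv := Hn K ρ ε with hHv
  set D := Dn K ρ ε with hDv
  have nM : 0 ≤ M := integral_nonneg fun y => sq_nonneg _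
  have nφ0 : 0 ≤ ∫ y, wt K ρ y * ε y ^ 2 :=
    integral_nonneg fun y => mul_nonneg (a2 y).le (sq_nonneg _)
  have nφ1 : 0 ≤ ∫ y, wt K ρ y * deriv ε y ^ 2 :=
    integral_nonneg fun y => mul_nonneg (a2 y).le (sq_nonneg _)
  have np0 : 0 ≤ ∫ y, ph1 K ρ y * ε y ^ 2 :=
    integral_nonneg fun y => mul_nonneg (b2 y).le (sq_nonneg _)
  have np1 : 0 ≤ ∫ y, ph1 K ρ y * deriv ε y ^ 2 :=
    integral_nonneg fun y => mul_nonneg (b2 y).le (sq_nonneg _)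
  have np2 : 0 ≤ ∫ y, ph1 K ρ y * deriv (deriv ε) y ^ 2 :=
    integral_nonneg fun y => mul_nonneg (b2 y).le (sq_nonneg _)
  have eH : Hv = (∫ y, wt K ρ y * deriv ε y ^ 2) + ∫ y, wt K ρ y * ε y ^ 2 := by
    rw [hHv, Hn, ← integral_add wφ1 wφ0]
    refine integral_congr_ae (ae_of_all _ fun y => ?_)
    simp only
    ring
  have eD : D = (∫ y, ph1 K ρ y * deriv (deriv ε) y ^ 2) + (∫ y, ph1 K ρ y * deriv ε y ^ 2)
      + ∫ y, ph1 K ρ y * ε y ^ 2 := by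
    have e1 := integral_add (wp2.add wp1) wp0
    have e2 := integral_add wp2 wp1
    simp only [Pi.add_apply] at e1 e2
    rw [hDv, Dn, ← e2, ← e1]
    refine integral_congr_ae (ae_of_all _ fun y => ?_)
    simp only
    ring
  have ep12 : (∫ y, ph1 K ρ y * (deriv ε y ^ 2 + ε y ^ 2)) =
      (∫ y, ph1 K ρ y * deriv ε y ^ 2) + ∫ y, ph1 K ρ y * ε y ^ 2 := by
    rw [← integral_add wp1 wp0]
    refine integral_congr_ae (ae_of_all _ fun y => ?_)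
    simp only
    ring
  have ep20 : (∫ y, ph1 K ρ y * (deriv (deriv ε) y ^ 2 + ε y ^ 2)) =
      (∫ y, ph1 K ρ y * deriv (deriv ε) y ^ 2) + ∫ y, ph1 K ρ y * ε y ^ 2 := by
    rw [← integral_add wp2 wp0]
    refine integral_congr_ae (ae_of_all _ fun y => ?_)
    simp only
    ring
  have eψ : (∫ y, psiW K ρ y * (deriv ε y ^ 2 + ε y ^ 2)) =
      (∫ y, psiW K ρ y * deriv ε y ^ 2) + ∫ y, psiW K ρ y * ε y ^ 2 := by
    rw [← integral_add wψ1 wψ0]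
    refine integral_congr_ae (ae_of_all _ fun y => ?_)
    simp only
    ring
  obtain ⟨-, g1, -, -⟩ := h5 (wt K ρ) 1 a1 a2 a3 a4 ε hε2 m0 m1 m2
  obtain ⟨-, g2, -, g3⟩ := h5 (ph1 K ρ) 1 b1 b2 b3 b4 ε hε2 m0 m1 m2
  obtain ⟨-, g4, -, -⟩ := h5 (psiW K ρ) 8 c1 c2 c3 c4 ε hε2 m0 m1 m2
  have hI2 : (∫ y, wt K ρ y * ε y ^ 6) ≤ 8 * M ^ 2 * Hv := g1
  have hI4 : (∫ y, ph1 K ρ y * ε y ^ 6) ≤ 8 * M ^ 2 * D := by
    refine g2.trans ?_
    rw [ep12]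
    apply mul_le_mul_of_nonneg_left _ (by positivity)
    linarith
  have hI6 : (∫ y, ph1 K ρ y * ε y ^ 10) ≤ 256 * M ^ 4 * D := by
    refine g3.trans ?_
    rw [ep20]
    apply mul_le_mul_of_nonneg_left _ (by positivity)
    linarith
  have hψ1 : (∫ y, psiW K ρ y * deriv ε y ^ 2) ≤ D + ρ ^ m * M := by
    have h := hIN ρ hρ hρb' ε hε
    rw [one_mul, ep20] at h
    have h' : (∫ y, psiW K ρ y * deriv ε y ^ 2) =
        ∫ y, ρ ^ 2 * (4 + y ^ 2) * ph1 K ρ y * deriv ε y ^ 2 := rfl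
    rw [h']
    linarith
  have hψ0 : (∫ y, psiW K ρ y * ε y ^ 2) ≤ 4 * D + 4 * (ρ ^ m * M) := by
    have h : (∫ y, psiW K ρ y * ε y ^ 2) ≤
        ∫ y, (4 * (ph1 K ρ y * ε y ^ 2) + 4 * ρ ^ m * ε y ^ 2) := by
      refine integral_mono wψ0 ((wp0.const_mul 4).add (s0.const_mul (4 * ρ ^ m))) fun y => ?_
      have h1 := mul_le_mul_of_nonneg_right (hψ y) (sq_nonneg (ε y))
      simp only
      linarith
    rw [integral_add (wp0.const_mul 4) (s0.const_mul (4 * ρ ^ m)), integral_const_mul,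
      integral_const_mul] at h
    have h2 : 4 * ρ ^ m * ∫ y, ε y ^ 2 = 4 * (ρ ^ m * M) := by rw [hMdef]; ring
    rw [h2] at h
    linarith
  have hI5 : (∫ y, psiW K ρ y * ε y ^ 6) ≤ 40 * M ^ 2 * (D + ρ ^ m * M) := by
    refine g4.trans ?_
    rw [eψ]
    calc 8 * M ^ 2 * ((∫ y, psiW K ρ y * deriv ε y ^ 2) + ∫ y, psiW K ρ y * ε y ^ 2)
        ≤ 8 * M ^ 2 * ((D + ρ ^ m * M) + (4 * D + 4 * (ρ ^ m * M))) := by gcongr
      _ = _ := by ring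
  -- the bound
  set Bd : ℝ → ℝ := fun y => A * (ρ * (wt K ρ y * ε y ^ 2)) + A * (ρ * (wt K ρ y * ε y ^ 6)) +
    A * (ρ ^ (m + 1) * ε y ^ 2) + A * (ph1 K ρ y * ε y ^ 6) + A * (psiW K ρ y * ε y ^ 6) +
    A * (ph1 K ρ y * ε y ^ 10) +
    1 / 20 * (ph1 K ρ y * (deriv (deriv ε) y ^ 2 + deriv ε y ^ 2)) with hBd
  have w21 : Integrable (fun y => ph1 K ρ y * (deriv (deriv ε) y ^ 2 + deriv ε y ^ 2)) :=
    int_w cp bp (s2.add s1)
  have j1 : Integrable (fun y => A * (ρ * (wt K ρ y * ε y ^ 2))) :=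
    (wφ0.const_mul ρ).const_mul A
  have j2 : Integrable (fun y => A * (ρ * (wt K ρ y * ε y ^ 6))) :=
    (wφ6.const_mul ρ).const_mul A
  have j3 : Integrable (fun y => A * (ρ ^ (m + 1) * ε y ^ 2)) :=
    (s0.const_mul _).const_mul A
  have j4 : Integrable (fun y => A * (ph1 K ρ y * ε y ^ 6)) := wp6.const_mul A
  have j5 : Integrable (fun y => A * (psiW K ρ y * ε y ^ 6)) := wψ6.const_mul A
  have j6 : Integrable (fun y => A * (ph1 K ρ y * ε y ^ 10)) := wp10.const_mul A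
  have j7 : Integrable (fun y => 1 / 20 *
      (ph1 K ρ y * (deriv (deriv ε) y ^ 2 + deriv ε y ^ 2))) := w21.const_mul _
  have k2 := j1.add j2
  have k3 := k2.add j3
  have k4 := k3.add j4
  have k5 := k4.add j5
  have k6 := k5.add j6
  have k7 := k6.add j7
  have hBdI : Integrable Bd := k7
  have hBdE : ∫ y, Bd y = A * (ρ * ∫ y, wt K ρ y * ε y ^ 2) +
      A * (ρ * ∫ y, wt K ρ y * ε y ^ 6) + A * (ρ ^ m * ρ * M) +
      A * (∫ y, ph1 K ρ y * ε y ^ 6) + A * (∫ y, psiW K ρ y * ε y ^ 6) +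
      A * (∫ y, ph1 K ρ y * ε y ^ 10) +
      1 / 20 * ∫ y, ph1 K ρ y * (deriv (deriv ε) y ^ 2 + deriv ε y ^ 2) := by
    have e7 := integral_add k6 j7
    have e6 := integral_add k5 j6
    have e5 := integral_add k4 j5
    have e4 := integral_add k3 j4
    have e3 := integral_add k2 j3
    have e2 := integral_add j1 j2
    simp only [Pi.add_apply, integral_const_mul] at e2 e3 e4 e5 e6 e7
    rw [hBd]
    simp only
    rw [e7, e6, e5, e4, e3, e2, hMdef, pow_succ]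
  have hpt : ∀ y, |nlInt α K ρ v DV ε y| ≤ Bd y := by
    intro y
    exact nl_point hα0 hα1 hK hCV hρ hρ1 (a2 y) (b2 y) (hp8 y).2.1 (hp8 y).2.2.1 (hvb y)
      (hDVb y) (hpe y) (hPW' y) h2
  have hcont : Continuous (nlInt α K ρ v DV ε) := by
    have cp2 : Continuous (ph2 K ρ) :=
      continuous_iff_continuousAt.2 fun y =>
        ((h1 K ρ hK0 hρ).2.2.2.2.2.2.1 y).continuousAt
    unfold nlInt nG nG2 nGG
    fun_prop
  have hInt : Integrable (nlInt α K ρ v DV ε) :=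
    hBdI.mono' hcont.aestronglyMeasurable (ae_of_all _ hpt)
  refine ⟨hInt, ?_⟩
  have hle : (∫ y, nlInt α K ρ v DV ε y) ≤ ∫ y, Bd y :=
    integral_mono hInt hBdI fun y => (le_abs_self _).trans (hpt y)
  refine hle.trans ?_
  rw [hBdE]
  have hM1 : 100 * A * M ≤ 1 := by
    have h := hM
    rw [le_div_iff₀ (by positivity)] at h
    linarith
  have e21 : (∫ y, ph1 K ρ y * (deriv (deriv ε) y ^ 2 + deriv ε y ^ 2)) ≤ D := by
    have : (∫ y, ph1 K ρ y * (deriv (deriv ε) y ^ 2 + deriv ε y ^ 2)) =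
        (∫ y, ph1 K ρ y * deriv (deriv ε) y ^ 2) + ∫ y, ph1 K ρ y * deriv ε y ^ 2 := by
      rw [← integral_add wp2 wp1]
      refine integral_congr_ae (ae_of_all _ fun y => ?_)
      simp only
      ring
    rw [this]
    linarith
  exact nl_final hA1 hρ hρA nM hM1 (by linarith) (by linarith) (by positivity) (by linarith)
    hI2 hI4 hI5 hI6 e21

end Pool.Agent.Helper56.KV
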